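import Mathlib
import Pool.Agent.H.MP_d015b4_co.Lat
import Pool.Agent.Lib.helper2.Dom

set_option autoImplicit false

namespace Pool.Agent.Results.MP_d015b4_co.Cutset
open Pool.Agent.H.MP_d015b4_co Pool.Agent.Lib.helper8

theorem ix_lt (a : L) : ix a < 52 := Fin.isLt (n := 52) a

theorem srch_spec : ∀ (k U : ℕ), srch k U = true → (∀ i, U.testBit i = true → i < 52) →
    ∀ D : Finset L, D.card = k → (∀ d ∈ D, U.testBit (ix d) = true) →
      (∀ a ∈ D, ∀ b ∈ D, a ≤ b → a = b) →
      (∀ w : L, U.testBit (ix w) = true → ∃ d ∈ D, w ≤ d ∨ d ≤ w) → False := by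
  intro k
  induction k with
  | zero =>
    intro U h hU D hD _ _ h3
    have h0 : U ≠ 0 := by
      intro e; subst e; simp [srch] at h
    have hb := Pool.Agent.Lib.helper2.Dom.testBit_log2 h0
    obtain ⟨d, hd, _⟩ := h3 (mk ⟨Nat.log2 U, hU _ hb⟩) hb
    rw [Finset.card_eq_zero.1 hD] at hd
    simp at hd
  | succ k ih =>
    intro U h hU D hD h1 h2 h3
    have h' : (Nat.beq U 0 || allLt 52 (fun u => !((cm (Nat.log2 U) &&& U).testBit u) ||
        srch k (U ^^^ (U &&& cm u)))) = true := h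
    have h0 : U ≠ 0 := by
      intro e
      obtain ⟨d, hd⟩ := Finset.card_pos.1 (by omega : 0 < D.card)
      have := h1 d hd
      rw [e] at this
      simp at this
    have h4 : allLt 52 (fun u => !((cm (Nat.log2 U) &&& U).testBit u) ||
        srch k (U ^^^ (U &&& cm u))) = true := by
      rw [Bool.or_eq_true] at h'
      exact h'.resolve_left (fun e => h0 (Nat.eq_of_beq_eq_true e))
    have hb := Pool.Agent.Lib.helper2.Dom.testBit_log2 h0
    obtain ⟨u, hu, hc⟩ := h3 (mk ⟨Nat.log2 U, hU _ hb⟩) hb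
    have h5 := (allLt_iff _ _).1 h4 (ix u) (ix_lt u)
    have h6 : (cm (Nat.log2 U) &&& U).testBit (ix u) = true := by
      rw [Nat.testBit_and, Bool.and_eq_true]
      exact ⟨(cm_spec (mk ⟨Nat.log2 U, hU _ hb⟩) u).2 hc, h1 u hu⟩
    rw [h6] at h5
    have h7 : srch k (U ^^^ (U &&& cm (ix u))) = true := by simpa using h5
    have hbit : ∀ i, (U ^^^ (U &&& cm (ix u))).testBit i = true ↔
        (U.testBit i = true ∧ ¬ (cm (ix u)).testBit i = true) := by
      intro i
      rw [Nat.testBit_xor, Nat.testBit_and]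
      cases U.testBit i <;> cases (cm (ix u)).testBit i <;> simp
    refine ih _ h7 (fun i hi => hU i ((hbit i).1 hi).1) (D.erase u)
      (by rw [Finset.card_erase_of_mem hu]; omega) ?_ ?_ ?_
    · intro d hd
      obtain ⟨hne, hdD⟩ := Finset.mem_erase.1 hd
      refine (hbit _).2 ⟨h1 d hdD, fun hh => ?_⟩
      rcases (cm_spec u d).1 hh with e | e
      · exact hne (h2 u hu d hdD e).symm
      · exact hne (h2 d hdD u hu e)
    · intro a ha b hb
      exact h2 a (Finset.mem_of_mem_erase ha) b (Finset.mem_of_mem_erase hb)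
    · intro w hw
      obtain ⟨hw1, hw2⟩ := (hbit _).1 hw
      obtain ⟨d, hd, hwd⟩ := h3 w hw1
      refine ⟨d, Finset.mem_erase.2 ⟨?_, hd⟩, hwd⟩
      rintro rfl
      exact hw2 ((cm_spec d w).2 hwd.symm)

theorem mem_of_comp {C : Set L} (hC : IsMaxChain (· ≤ ·) C) (z : L)
    (hz : ∀ y ∈ C, z ≤ y ∨ y ≤ z) : z ∈ C := by
  have h := hC.2 (hC.1.insert (a := z) (fun y hy _ => hz y hy)) (Set.subset_insert z C)
  rw [h]
  exact Set.mem_insert z C

theorem cut (C : Set L) (hC : IsMaxChain (· ≤ ·) C) :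
    (C ∩ insert x0 (↑K0.toFinset : Set L)).Nonempty := by
  by_contra hn
  have hav : ∀ d ∈ C, d ≠ x0 ∧ d ∉ K0 := by
    intro d hd
    constructor
    · rintro rfl
      exact hn ⟨_, hd, Set.mem_insert _ _⟩
    · intro hk
      exact hn ⟨d, hd, Set.mem_insert_of_mem _ (by simpa using hk)⟩
  have tot : ∀ a ∈ C, ∀ b ∈ C, a ≤ b ∨ b ≤ a := fun a ha b hb => hC.1.total ha hb
  have hbot : bot0 ∈ C := mem_of_comp hC _ (fun y _ => Or.inl (bot_top y).1)
  have htop : top0 ∈ C := mem_of_comp hC _ (fun y _ => Or.inr (bot_top y).2)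
  obtain ⟨c, ⟨hcC, hcR⟩, hcmax⟩ := Set.exists_max_image {c | c ∈ C ∧ inR c = true} rk
    (Set.toFinite _) ⟨bot0, hbot, R_ends.1⟩
  have hct : top0 ≠ c := by
    rintro rfl
    rw [R_ends.2] at hcR
    exact absurd hcR (by simp)
  obtain ⟨d, ⟨hdC, hcd, hdc⟩, hdmin⟩ := Set.exists_min_image {d | d ∈ C ∧ c ≤ d ∧ d ≠ c} rk
    (Set.toFinite _) ⟨top0, htop, (bot_top c).2, hct⟩
  have hdR : inR d = false := by
    cases hh : inR d
    · rfl
    · have := hcmax d ⟨hdC, hh⟩
      have := rk_lt c d hcd hdc.symm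
      omega
  rcases R_step c d hcR hdR hcd with e | e | ⟨z, z1, z2, z3, z4⟩
  · exact (hav d hdC).1 e
  · exact (hav d hdC).2 e
  · have hz : z ∈ C := by
      refine mem_of_comp hC z (fun y hy => ?_)
      rcases tot y hy c hcC with e | e
      · exact Or.inr (e.trans z1)
      · by_cases e1 : y = c
        · exact Or.inr (e1 ▸ z1)
        · rcases tot y hy d hdC with e2 | e2
          · by_cases e3 : y = d
            · exact Or.inl (e3 ▸ z2)
            · have := hdmin y ⟨hy, e, e1⟩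
              have := rk_lt y d e2 e3
              omega
          · exact Or.inl (z2.trans e2)
    have := hdmin z ⟨hz, z1, z3⟩
    have := rk_lt z d z2 z4
    omega

theorem ch_maxchain (i : Fin 9) : IsMaxChain (· ≤ ·) {a : L | a ∈ ch i} := by
  refine ⟨fun a ha b hb _ => ch_chain i a ha b hb, fun t ht hs => ?_⟩
  refine Set.Subset.antisymm hs (fun z hz => ch_max i z (fun a ha => ?_))
  exact ht.total hz (hs ha)

theorem result :
    ¬ ∀ (L : Type) [DistribLattice L] [Finite L] (x : L) (m : ℕ),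
      IsLeast {n : ℕ | ∃ K : Set L, K.ncard = n ∧ (∀ k ∈ K, ¬ k ≤ x ∧ ¬ x ≤ k) ∧
        ∀ C : Set L, IsMaxChain (· ≤ ·) C → (C ∩ insert x K).Nonempty} m →
      ∃ A : Set L, Maximal (IsAntichain (· ≤ ·)) A ∧ x ∈ A ∧ A.ncard = m + 1 := by
  intro h
  obtain ⟨A, hA, hx, hcard⟩ := h L x0 9 (by
    constructor
    · refine ⟨↑K0.toFinset, ?_, ?_, cut⟩
      · rw [Set.ncard_coe_finset, List.toFinset_card_of_nodup K0_spec.1, K0_spec.2.1]
      · intro k hk
        exact K0_spec.2.2 k (by simpa using hk)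
    · rintro n ⟨K, rfl, hK1, hK2⟩
      have hex : ∀ i : Fin 9, ∃ a ∈ K, a ∈ ch i := by
        intro i
        obtain ⟨a, ha, e | e⟩ := hK2 _ (ch_maxchain i)
        · exact absurd (e ▸ ha) (ch_x i)
        · exact ⟨a, e, ha⟩
      choose f hf1 hf2 using hex
      have hinj : Function.Injective f := by
        intro i j e
        exact ch_disj i j (f i) (hf2 i) (e ▸ hf2 j) (hK1 _ (hf1 i)).1 (hK1 _ (hf1 i)).2
      have h1 : (Set.range f).ncard = 9 := by
        rw [Set.ncard_range_of_injective hinj]; simp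
      have h2 : (Set.range f).ncard ≤ K.ncard :=
        Set.ncard_le_ncard (by rintro _ ⟨i, rfl⟩; exact hf1 i) (Set.toFinite _)
      omega)
  have hanti : ∀ a ∈ A, ∀ b ∈ A, a ≤ b → a = b := by
    intro a ha b hb hab
    by_contra hne
    exact hA.1 ha hb hne hab
  have hfin := Set.toFinite A
  refine srch_spec 9 4503599626846208 srch9 ?_ (hfin.toFinset.erase x0) ?_ ?_ ?_ ?_
  · intro i hi
    by_contra hlt
    have : Nat.testBit 4503599626846208 i = false :=
      Nat.testBit_lt_two_pow (lt_of_lt_of_le (by norm_num : 4503599626846208 < 2 ^ 52)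
        (Nat.pow_le_pow_right (by norm_num) (by omega)))
    rw [this] at hi
    exact absurd hi (by simp)
  · rw [Finset.card_erase_of_mem (by simpa using hx), ← Set.ncard_eq_toFinset_card A hfin, hcard]
  · intro d hd
    obtain ⟨hne, hdA⟩ := Finset.mem_erase.1 hd
    have hdA' : d ∈ A := by simpa using hdA
    refine (U0_spec d).2 ?_
    rintro (e | e)
    · exact hne (hanti d hdA' x0 hx e)
    · exact hne (hanti x0 hx d hdA' e).symm
  · intro a ha b hb
    exact hanti a (by simpa using Finset.mem_of_mem_erase ha) b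
      (by simpa using Finset.mem_of_mem_erase hb)
  · intro w hw
    have hwx := (U0_spec w).1 hw
    by_contra hno
    have hno' : ∀ d ∈ A, ¬ (w ≤ d ∨ d ≤ w) := by
      intro d hd hc
      by_cases e : d = x0
      · subst e; exact hwx hc
      · exact hno ⟨d, Finset.mem_erase.2 ⟨e, by simpa using hd⟩, hc⟩
    have hins : IsAntichain (· ≤ ·) (insert w A) :=
      hA.1.insert (fun d hd _ hc => hno' d hd (Or.inr hc)) (fun d hd _ hc => hno' d hd (Or.inl hc))
    have hw' : w ∈ A := hA.2 hins (Set.subset_insert w A) (Set.mem_insert w A)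
    exact hno' w hw' (Or.inl le_rfl)

end Pool.Agent.Results.MP_d015b4_co.Cutset
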